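import Mathlib
import Pool.Agent.Work.MP_9d0e17_r3.Main3

/-!
# MP_9d0e17_co: the Paley frame stays well conditioned up to `c √p` columns, every `c < √3`

For every constant `c < √3 = 1.732...` there are `C` and `P0` such that for all primes
`p ≡ 1 mod 4` with `p ≥ P0`, every set of at most `c √p` columns of the Paley equiangular tight
frame has condition number at most `C`. The matrix and the inequality are those of the frozen
statement of the problem.
-/

set_option autoImplicit false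

namespace Pool.Agent.Results.MP_9d0e17_co.BelowSqrtThree

theorem result :
    ∀ c : ℝ, c < Real.sqrt 3 → ∃ C : ℝ, ∃ P0 : ℕ,
      ∀ p : ℕ, p.Prime → p % 4 = 1 → P0 ≤ p →
      ∀ Φ : ℕ → ℕ → ℂ,
        (∀ r j : ℕ, Φ r j =
          if j = p then (if r = 0 then (1 : ℂ) else 0)
          else if r = 0 then ((1 / Real.sqrt (p : ℝ) : ℝ) : ℂ)
          else ((Real.sqrt (2 / (p : ℝ)) : ℝ) : ℂ) *
            Complex.exp (2 * (Real.pi : ℂ) * Complex.I * ((r : ℂ) * (j : ℂ)) / (p : ℂ))) →
      ∀ S : Finset ℕ, S ⊆ Finset.range (p + 1) →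
        (S.card : ℝ) ≤ c * Real.sqrt (p : ℝ) →
        ∀ x y : ℕ → ℂ,
          (∑ r ∈ (Finset.range p).image (fun s => s * s % p),
              ‖∑ j ∈ S, Φ r j * x j‖ ^ 2) * (∑ j ∈ S, ‖y j‖ ^ 2)
            ≤ C ^ 2 * (∑ r ∈ (Finset.range p).image (fun s => s * s % p),
              ‖∑ j ∈ S, Φ r j * y j‖ ^ 2) * (∑ j ∈ S, ‖x j‖ ^ 2) :=
  Pool.Agent.Paley67r3.main3

end Pool.Agent.Results.MP_9d0e17_co.BelowSqrtThree
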