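import Mathlib
import Pool.Agent.Work.MP_9d0e17_ap_helper4.WA
import Pool.Agent.Work.MP_9d0e17_ap_helper51.WB
import Pool.Agent.Work.MP_9d0e17_ap_helper95.W
import Pool.Agent.Work.MP_9d0e17_ap_helper95.M
import Pool.Agent.Work.MP_9d0e17_ap_helper95.CORE
import Pool.Agent.Work.MP_9d0e17_ap_helper59.CELL
import Pool.Agent.Work.MP_9d0e17_ap_helper59.SEP
import Pool.Agent.Work.MP_9d0e17_ap_helper30.LV
import Pool.Agent.Work.MP_9d0e17_ap_helper23.PAIR
import Pool.Agent.Work.MP_9d0e17_ap_helper23.FRAME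
import Pool.Agent.Work.MP_9d0e17_ap_helper90.CLUS
import Pool.Agent.Work.MP_9d0e17_ap_helper90.QF
import Pool.Agent.Work.MP_9d0e17_ap_helper90.Fin

/-!
# MP_9d0e17_co: restricted isometry of the Paley frame for clustered sets of columns

For every `ε > 0` there is `δ > 0` such that for all large primes `p ≡ 1 mod 4`: every set `S` of
columns of the Paley equiangular tight frame whose residues are covered by at most `p ^ δ`
arithmetic progressions of length `L` with a common difference, with `|S| L ≤ p ^ (3/2 - ε)`, has all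
squared singular values between `1 - p ^ (-δ)` and `1 + p ^ (-δ)`. The matrix is that of the frozen
statement of the problem.
-/

set_option autoImplicit false

namespace Pool.Agent.Results.MP_9d0e17_co.ClusteredColumns

open Pool.Agent.Work.AP90

theorem result :
    ∀ ε : ℝ, 0 < ε → ∃ δ : ℝ, 0 < δ ∧ ∃ P0 : ℕ,
      ∀ p : ℕ, p.Prime → p % 4 = 1 → P0 ≤ p →
      ∀ Φ : ℕ → ℕ → ℂ,
        (∀ r j : ℕ, Φ r j =
          if j = p then (if r = 0 then (1 : ℂ) else 0)
          else if r = 0 then ((1 / Real.sqrt (p : ℝ) : ℝ) : ℂ)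
          else ((Real.sqrt (2 / (p : ℝ)) : ℝ) : ℂ) *
            Complex.exp (2 * (Real.pi : ℂ) * Complex.I * ((r : ℂ) * (j : ℂ)) / (p : ℂ))) →
      ∀ (L d : ℕ) (W S : Finset ℕ), 1 ≤ L → ¬ p ∣ d → (W.card : ℝ) ≤ (p : ℝ) ^ δ →
        S ⊆ Finset.range (p + 1) →
        (∀ j ∈ S, j ≠ p → ∃ w ∈ W, ∃ i < L, j ≡ w + d * i [MOD p]) →
        (S.card : ℝ) * L ≤ (p : ℝ) ^ (3 / 2 - ε) →
        ∀ x : ℕ → ℂ,
          (1 - (p : ℝ) ^ (-δ)) * ∑ j ∈ S, ‖x j‖ ^ 2 ≤
              ∑ r ∈ (Finset.range p).image (fun s => s * s % p), ‖∑ j ∈ S, Φ r j * x j‖ ^ 2 ∧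
            ∑ r ∈ (Finset.range p).image (fun s => s * s % p), ‖∑ j ∈ S, Φ r j * x j‖ ^ 2 ≤
              (1 + (p : ℝ) ^ (-δ)) * ∑ j ∈ S, ‖x j‖ ^ 2 :=
  helper90.clustered
    (helper90.stmt_QF
      (helper30.stmt_LV (helper95.stmt_M (helper95.stmt_W (helper51.stmt_WB helper4.stmt_WA)))
        helper95.stmt_CORE helper59.stmt_CELL)
      helper59.stmt_SEP helper23.stmt_PAIR helper90.stmt_CLUS)
    helper23.frame_nonneg

end Pool.Agent.Results.MP_9d0e17_co.ClusteredColumns
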