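import Mathlib
import Pool.Agent.Work.MP_9d0e17_int2.Two

/-!
# MP_9d0e17_co: vectors with few values on `K √p` columns, every `K`

Let `p ≡ 1 mod 4`, `K ≥ 1` and `k` with `6 (17 K)^k ≤ √p`. Every complex vector supported on at
most `K √p` columns of the Paley equiangular tight frame, whose real parts have at most `k` distinct
nonzero absolute values, and whose imaginary parts too, is mapped by the frame matrix with two-sided
distortion `1 ± (1 - 1 / (6 (17 K)^k)^2)`.
-/

set_option autoImplicit false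

namespace Pool.Agent.Results.MP_9d0e17_co.FewValues

open Pool.Agent.Paley67 Pool.Agent.Paley62

theorem result :
    ∀ p : ℕ, p.Prime → p % 4 = 1 →
      ∀ Φ : ℕ → ℕ → ℂ,
        (∀ r j : ℕ, Φ r j =
          if j = p then (if r = 0 then (1 : ℂ) else 0)
          else if r = 0 then ((1 / Real.sqrt (p : ℝ) : ℝ) : ℂ)
          else ((Real.sqrt (2 / (p : ℝ)) : ℝ) : ℂ) *
            Complex.exp (2 * (Real.pi : ℂ) * Complex.I * ((r : ℂ) * (j : ℂ)) / (p : ℂ))) →
      ∀ K : ℝ, 1 ≤ K → ∀ k : ℕ, 6 * (17 * K) ^ k ≤ Real.sqrt (p : ℝ) →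
      ∀ S : Finset ℕ, S ⊆ Finset.range (p + 1) → (S.card : ℝ) ≤ K * Real.sqrt (p : ℝ) →
      ∀ v : ℕ → ℂ,
        ((S.image fun j => |(v j).re|).erase 0).card ≤ k →
        ((S.image fun j => |(v j).im|).erase 0).card ≤ k →
          |∑ r ∈ (Finset.range p).image (fun s => s * s % p), ‖∑ j ∈ S, Φ r j * v j‖ ^ 2 -
              ∑ j ∈ S, ‖v j‖ ^ 2| ≤
            (1 - 1 / (6 * (17 * K) ^ k) ^ 2) * ∑ j ∈ S, ‖v j‖ ^ 2 := by
  intro p hp hp4 Φ hΦ K hK k hX S hS hm v hre him
  have : Fact p.Prime := ⟨hp⟩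
  have hΦ' : Φ = Ph p := by
    funext r j
    rw [hΦ]; rfl
  rw [hΦ']
  exact few_frame hp4 S hS K hK k hm hX v hre him

end Pool.Agent.Results.MP_9d0e17_co.FewValues
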