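import Mathlib
import Pool.Agent.Work.MP_9d0e17_int2.Two

/-!
# MP_9d0e17_co: integer vectors of any size

For every prime `p ≡ 1 mod 4`, `p ≥ 100`, every set `S` of `m ≤ p / 3` columns of the Paley
equiangular tight frame and every Gaussian integer vector `v` on `S` whose real parts and whose
imaginary parts have sum of absolute values at most `9 p / 10`, the norm of `Φ v` satisfies
`| |Φ v|² - |v|² | ≤ |v|² - (1/16) min (|v|², p / m)`.
-/

set_option autoImplicit false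

namespace Pool.Agent.Results.MP_9d0e17_co.IntegerVectors

open Pool.Agent.Paley67 Pool.Agent.Paley62

theorem result :
    ∀ p : ℕ, p.Prime → p % 4 = 1 → 100 ≤ p →
      ∀ Φ : ℕ → ℕ → ℂ,
        (∀ r j : ℕ, Φ r j =
          if j = p then (if r = 0 then (1 : ℂ) else 0)
          else if r = 0 then ((1 / Real.sqrt (p : ℝ) : ℝ) : ℂ)
          else ((Real.sqrt (2 / (p : ℝ)) : ℝ) : ℂ) *
            Complex.exp (2 * (Real.pi : ℂ) * Complex.I * ((r : ℂ) * (j : ℂ)) / (p : ℂ))) →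
      ∀ S : Finset ℕ, S ⊆ Finset.range (p + 1) → 3 * S.card ≤ p →
      ∀ v : ℕ → ℂ, (∀ j ∈ S, ∃ a b : ℤ, v j = a + b * Complex.I) →
        10 * ∑ j ∈ S, |(v j).re| ≤ 9 * (p : ℝ) → 10 * ∑ j ∈ S, |(v j).im| ≤ 9 * (p : ℝ) →
          |∑ r ∈ (Finset.range p).image (fun s => s * s % p), ‖∑ j ∈ S, Φ r j * v j‖ ^ 2 -
              ∑ j ∈ S, ‖v j‖ ^ 2| ≤
            ∑ j ∈ S, ‖v j‖ ^ 2 - 1 / 16 * min (∑ j ∈ S, ‖v j‖ ^ 2) ((p : ℝ) / S.card) := by
  intro p hp hp4 hp100 Φ hΦ S hS hS3 v hint hre him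
  have : Fact p.Prime := ⟨hp⟩
  have hΦ' : Φ = Ph p := by
    funext r j
    rw [hΦ]; rfl
  rw [hΦ']
  exact int_frame2 hp4 hp100 S hS hS3 v hint hre him

end Pool.Agent.Results.MP_9d0e17_co.IntegerVectors
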